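import Pool.Agent.H.MP_5aad23_co.Main

namespace Pool.Agent.Results.MP_5aad23_co.Full
open Pool.Agent.H.MP_5aad23_co

theorem result (n : ℕ) (hn : 1 ≤ n) : w210 n = v n := main n hn

end Pool.Agent.Results.MP_5aad23_co.Full
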